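import Mathlib

namespace Pool.Agent.Results.MP_e74e46_co.Cex

open Finset

variable {n m : ℕ}

/-- additive value of a bundle -/
def val (w : Fin m → ℝ) (S : Finset (Fin m)) : ℝ := ∑ g ∈ S, w g

/-- an allocation assigns each good to an agent; this is the bundle of agent `i` -/
def bundle (A : Fin m → Fin n) (i : Fin n) : Finset (Fin m) := univ.filter (fun g => A g = i)

def EF1 (w : Fin n → Fin m → ℝ) (A : Fin m → Fin n) : Prop :=
  ∀ i j, bundle A j = ∅ ∨ ∃ g ∈ bundle A j, val (w i) (bundle A j \ {g}) ≤ val (w i) (bundle A i)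

def PO (u : Fin n → Fin m → ℝ) (A : Fin m → Fin n) : Prop :=
  ¬ ∃ B : Fin m → Fin n, (∀ i, val (u i) (bundle A i) ≤ val (u i) (bundle B i)) ∧
    ∃ i, val (u i) (bundle A i) < val (u i) (bundle B i)

def Balanced (A : Fin m → Fin n) : Prop :=
  ∀ i, (bundle A i).card = m / n ∨ (bundle A i).card = (m + n - 1) / n

def U : Fin 2 → Fin 8 → ℕ := ![![7, 7, 1, 1, 6, 1, 2, 4], ![7, 7, 3, 3, 6, 3, 3, 6]]

lemma val_cast (w : Fin 8 → ℕ) (S : Finset (Fin 8)) :
    val (fun g => (w g : ℝ)) S = ((∑ g ∈ S, w g : ℕ) : ℝ) := by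
  simp [val]

def dom (A : Fin 8 → Fin 2) : Fin 8 → Fin 2 := fun g =>
  if Nat.testBit 0xbfafafadbfafafad7f6f6f6d00000000afadadacafadadac6f6d6d6cbfafafad7f6f6f6d7f6f6f6d3f2f2f2dafadadac6f6d6d6c6f6d6d6c2f2d2d2c000000007f6f6f6d7f6f6f6d3f2f2f2d000000006f6d6d6c6f6d6d6c2f2d2d2c7f6f6f6d3f2f2f2d3f2f2f2d1f0f0f0d6f6d6d6c2f2d2d2c2f2d2d2c0f0d0d0cefededec3f2f2f2d3f2f2f2d1f0f0f0d000000002f2d2d2c2f2d2d2c0f0d0d0c3f2f2f2d1f0f0f0d1f0f0f0d170707052f2d2d2c0f0d0d0c0f0d0d0c07050504afadadac6f6d6d6c6f6d6d6c2f2d2d2cedecec003d3c3c003d3c3c001d1c1c006f6d6d6c2f2d2d2c2f2d2d2c0f0d0d0c3d3c3c001d1c1c001d1c1c0015141400 (8 * (∑ h, (A h).val * 2 ^ h.val) + g.val) then 1 else 0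

def Good (A : Fin 8 → Fin 2) : Prop :=
  (bundle A 0).card = 4 →
  (∀ i j, ∃ g ∈ bundle A j, ∑ x ∈ bundle A j \ {g}, U i x ≤ ∑ x ∈ bundle A i, U i x) →
  (∀ i, ∑ x ∈ bundle A i, U i x ≤ ∑ x ∈ bundle (dom A) i, U i x) ∧
    ∃ i, ∑ x ∈ bundle A i, U i x < ∑ x ∈ bundle (dom A) i, U i x

instance : DecidablePred Good := fun A => by unfold Good; infer_instance

lemma key0 : ∀ a b c d e f g h : Fin 2, Good ![a, b, c, d, e, f, g, h] := by decide +kernel

lemma key (A : Fin 8 → Fin 2) : Good A := by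
  have : A = ![A 0, A 1, A 2, A 3, A 4, A 5, A 6, A 7] := by
    funext i; fin_cases i <;> rfl
  rw [this]; exact key0 _ _ _ _ _ _ _ _

lemma tot (A : Fin 8 → Fin 2) : (bundle A 0).card + (bundle A 1).card = 8 := by
  have h := Finset.card_eq_sum_card_fiberwise (s := (univ : Finset (Fin 8))) (t := univ) (f := A)
    (fun _ _ => mem_univ _)
  rw [Fin.sum_univ_two] at h
  simpa [bundle] using h.symm

lemma main (A : Fin 8 → Fin 2) (h4 : (bundle A 0).card = 4) (hE : EF1 (fun i g => (U i g : ℝ)) A) :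
    ¬ PO (fun i g => (U i g : ℝ)) A := by
  intro hP
  have t := tot A
  obtain ⟨h1, i, h2⟩ := key A h4 (fun i j => by
    rcases hE i j with h | ⟨g, hg, h⟩
    · exfalso
      have : (bundle A j).card = 0 := by rw [h]; rfl
      fin_cases j <;> simp at this <;> simp [this] at t h4 <;> omega
    · refine ⟨g, hg, ?_⟩
      rw [val_cast, val_cast] at h
      exact_mod_cast h)
  refine hP ⟨dom A, fun i => ?_, i, ?_⟩
  · rw [val_cast, val_cast]; exact_mod_cast h1 i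
  · rw [val_cast, val_cast]; exact_mod_cast h2

theorem result : ∃ (n m : ℕ) (u : Fin n → Fin m → ℝ) (v : Fin m → ℝ), 2 ≤ n ∧
    (∀ i g, 0 < u i g) ∧ (∀ g, 0 ≤ v g) ∧
    (¬ ∃ A : Fin m → Fin n, EF1 u A ∧ PO u A ∧ EF1 (fun _ => v) A) ∧
    (¬ ∃ A : Fin m → Fin n, EF1 u A ∧ PO u A ∧ Balanced A) := by
  refine ⟨2, 8, fun i g => (U i g : ℝ), fun _ => 1, le_rfl, ?_, fun _ => zero_le_one, ?_, ?_⟩
  · intro i g
    have : ∀ i g, 0 < U i g := by decide
    exact Nat.cast_pos.mpr (this i g)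
  · rintro ⟨A, h1, h2, h3⟩
    refine main A ?_ h1 h2
    have t := tot A
    have k : ∀ i j, (bundle A j).card ≤ (bundle A i).card + 1 := by
      intro i j
      rcases h3 i j with h | ⟨g, hg, h⟩
      · rw [h]; simp
      · simp only [val, sum_const, nsmul_eq_mul, mul_one, Nat.cast_le] at h
        rw [card_sdiff_of_subset (singleton_subset_iff.2 hg), card_singleton] at h
        omega
    have := k 0 1
    have := k 1 0
    omega
  · rintro ⟨A, h1, h2, h3⟩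
    exact main A (by have := h3 0; omega) h1 h2

end Pool.Agent.Results.MP_e74e46_co.Cex
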